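import Pool.Agent.H43.TC.Targets

/-!
# MP_183c3b_co: the region is convex
-/

set_option autoImplicit false

namespace Pool.Agent.H33.TC

open Filter Topology Pool.Agent.H43.TC

/-- the region is convex -/
theorem cvx (hREG : T_REG) (hCLS : T_CLS) (hNER : T_NER) : T_CVX := by
  intro k t hk
  rw [convex_iff_forall_pos]
  rintro ⟨x₁, y₁⟩ hp ⟨x₂, y₂⟩ hq a b ha hb hab
  have hb' : b = 1 - a := by linarith
  subst hb'
  have key : ∀ l M : ℕ, 0 < M → l ≤ M →
      ((l / M : ℝ) * x₁ + (1 - l / M : ℝ) * x₂, (l / M : ℝ) * y₁ + (1 - l / M : ℝ) * y₂) ∈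
        region k t := by
    intro l M hM hl
    rw [hREG k t _ _ hk]
    have h := hNER k t ⟨0, hk⟩ _ _ _ _ _ _ ((hREG k t x₁ y₁ hk).1 hp)
      ((hREG k t x₂ y₂ hk).1 hq) l M hM hl
    have e1 : (l / M : ℝ) * (1 / 2) + (1 - l / M : ℝ) * (1 / 2) = 1 / 2 := by ring
    have e2 : ∀ x y : ℝ, (l / M : ℝ) * (x / 2) + (1 - l / M : ℝ) * (y / 2) =
        ((l / M : ℝ) * x + (1 - l / M : ℝ) * y) / 2 := by
      intro x y; ring
    rw [e1, e2, e2] at h
    exact h
  let r : ℕ → ℝ := fun M => (⌊a * ((M : ℝ) + 1)⌋₊ : ℝ) / ((M : ℝ) + 1)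
  have hr : Tendsto r atTop (𝓝 a) :=
    (tendsto_nat_floor_mul_div_atTop ha.le).comp
      (tendsto_atTop_add_const_right atTop (1 : ℝ) tendsto_natCast_atTop_atTop)
  have hlim : Tendsto (fun M => (r M * x₁ + (1 - r M) * x₂, r M * y₁ + (1 - r M) * y₂)) atTop
      (𝓝 (a * x₁ + (1 - a) * x₂, a * y₁ + (1 - a) * y₂)) := by
    refine Tendsto.prodMk_nhds ?_ ?_
    · exact (hr.mul_const _).add ((tendsto_const_nhds.sub hr).mul_const _)
    · exact (hr.mul_const _).add ((tendsto_const_nhds.sub hr).mul_const _)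
  have hmem : ∀ M, (r M * x₁ + (1 - r M) * x₂, r M * y₁ + (1 - r M) * y₂) ∈ region k t := by
    intro M
    have h := key ⌊a * ((M : ℝ) + 1)⌋₊ (M + 1) (Nat.succ_pos M) (by
      have h1 : a * ((M : ℝ) + 1) ≤ ((M + 1 : ℕ) : ℝ) := by
        push_cast
        have : (0 : ℝ) ≤ (M : ℝ) + 1 := by positivity
        nlinarith
      exact Nat.floor_le_of_le h1)
    push_cast at h
    exact h
  have hfin := (hCLS k t hk).mem_of_tendsto hlim (Eventually.of_forall hmem)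
  exact hfin

end Pool.Agent.H33.TC
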