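import Pool.Agent.H33.TC.PUL

/-!
# MP_183c3b_co: mixing two periodic colourings in slabs
-/

set_option autoImplicit false

namespace Pool.Agent.H33.TC

open Filter Topology Pool.Agent.H43.TC

theorem walks_le {G : Type} [AddCommGroup G] {k : ℕ} (s : Fin k → G) (c : G → Bool) (b : Bool)
    (t : ℕ) : ∀ x, walks s c b t x ≤ (2 * k) ^ t := by
  induction t with
  | zero =>
    intro x
    simp only [walks, pow_zero]
    split_ifs <;> omega
  | succ t ih =>
    intro x
    simp only [walks]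
    split_ifs
    · calc ∑ i : Fin k, (walks s c b t (x + s i) + walks s c b t (x - s i))
          ≤ ∑ _i : Fin k, ((2 * k) ^ t + (2 * k) ^ t) :=
            Finset.sum_le_sum fun i _ => add_le_add (ih _) (ih _)
        _ = (2 * k) ^ (t + 1) := by
            rw [Finset.sum_const, Finset.card_univ, Fintype.card_fin, smul_eq_mul, pow_succ]
            ring
    · exact Nat.zero_le _

/-- weighted sums over the slab and its complement -/
theorem slab_sum (hZON : T_ZON) (k n M l : ℕ) [NeZero n] [NeZero M] (i₀ : Fin k) (hl : l ≤ M)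
    (g₁ g₂ : Tor k n → ℕ) :
    ((∑ x : Tor k (n * M), (if (x i₀).val < n * l then g₁ (red n M x) else g₂ (red n M x)) : ℕ) :
      ℝ) / ((n * M : ℕ) : ℝ) ^ k =
      (l / M : ℝ) * (((∑ y, g₁ y : ℕ) : ℝ) / (n : ℝ) ^ k) +
        (1 - l / M : ℝ) * (((∑ y, g₂ y : ℕ) : ℝ) / (n : ℝ) ^ k) := by
  have hk : 0 < k := i₀.pos
  have e1 := hZON k n M l i₀ hl g₁
  have e2 := hZON k n M l i₀ hl g₂
  have e3 := hZON k n M M i₀ le_rfl g₂
  have e4 : ∑ x : Tor k (n * M), (if (x i₀).val < n * M then g₂ (red n M x) else 0) =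
      ∑ x : Tor k (n * M), g₂ (red n M x) :=
    Finset.sum_congr rfl fun x _ => if_pos (ZMod.val_lt (x i₀))
  rw [e4] at e3
  have e5 : ∑ x : Tor k (n * M), (if (x i₀).val < n * l then g₁ (red n M x) else g₂ (red n M x)) +
      ∑ x : Tor k (n * M), (if (x i₀).val < n * l then g₂ (red n M x) else 0) =
      ∑ x : Tor k (n * M), (if (x i₀).val < n * l then g₁ (red n M x) else 0) +
      ∑ x : Tor k (n * M), g₂ (red n M x) := by
    rw [← Finset.sum_add_distrib, ← Finset.sum_add_distrib]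
    refine Finset.sum_congr rfl fun x _ => ?_
    split_ifs
    · rfl
    · omega
  rw [e1, e2, e3] at e5
  have e6 : ((∑ x : Tor k (n * M), (if (x i₀).val < n * l then g₁ (red n M x)
      else g₂ (red n M x)) : ℕ) : ℝ) + l * (M : ℝ) ^ (k - 1) * ((∑ y, g₂ y : ℕ) : ℝ) =
      l * (M : ℝ) ^ (k - 1) * ((∑ y, g₁ y : ℕ) : ℝ) +
      M * (M : ℝ) ^ (k - 1) * ((∑ y, g₂ y : ℕ) : ℝ) := by exact_mod_cast e5
  have hn : (n : ℝ) ^ k ≠ 0 := pow_ne_zero _ (Nat.cast_ne_zero.2 (NeZero.ne n))
  have hM : (M : ℝ) ≠ 0 := Nat.cast_ne_zero.2 (NeZero.ne M)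
  have hM1 : (M : ℝ) ^ (k - 1) ≠ 0 := pow_ne_zero _ hM
  have e7 : ((n * M : ℕ) : ℝ) ^ k = (n : ℝ) ^ k * (M * (M : ℝ) ^ (k - 1)) := by
    push_cast
    rw [mul_pow, ← pow_succ', Nat.sub_add_cancel hk]
  rw [e7, div_eq_iff (mul_ne_zero hn (mul_ne_zero hM hM1))]
  field_simp
  linarith

/-- mixing two periodic colourings in slabs -/
theorem mix (hZON : T_ZON) (hBAD : T_BAD) (hLOC : T_LOC) : T_MIX := by
  classical
  intro k n M l t _ _ i₀ hl c₁ c₂
  have hk : 0 < k := i₀.pos
  have hk' : (0 : ℝ) < 2 * k := by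
    have : (0 : ℝ) < k := by exact_mod_cast hk
    linarith
  set c : Tor k (n * M) → Bool := fun x =>
    if (x i₀).val < n * l then c₁ (red n M x) else c₂ (red n M x) with hc
  have hn : (n : ℝ) ^ k ≠ 0 := pow_ne_zero _ (Nat.cast_ne_zero.2 (NeZero.ne n))
  have hnM0 : (0 : ℝ) < ((n * M : ℕ) : ℝ) := by
    exact_mod_cast Nat.pos_of_ne_zero (NeZero.ne (n * M))
  refine ⟨c, fun b => ?_, fun b => ?_⟩
  · have h := slab_sum hZON k n M l i₀ hl (fun y => if c₁ y = b then 1 else 0)
      (fun y => if c₂ y = b then 1 else 0)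
    unfold dens
    rw [size_eq, size_eq, size_eq, ← h]
    congr 2
    refine Finset.sum_congr rfl fun x _ => ?_
    simp only [hc]
    split_ifs <;> rfl
  · -- the walks
    set w₁ : Tor k n → ℕ := walks e c₁ b t with hw₁
    set w₂ : Tor k n → ℕ := walks e c₂ b t with hw₂
    have h := slab_sum hZON k n M l i₀ hl w₁ w₂
    set W : ℕ := ∑ x : Tor k (n * M),
      (if (x i₀).val < n * l then w₁ (red n M x) else w₂ (red n M x)) with hW
    set Bad : Set (Tor k (n * M)) := {x : Tor k (n * M) | ∃ j : ℤ, |j| ≤ t ∧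
      ¬ ((x i₀ + (j : ZMod (n * M))).val < n * l ↔ (x i₀).val < n * l)} with hBd
    have hgood : ∀ x, x ∉ Bad → walks e c b t x =
        if (x i₀).val < n * l then w₁ (red n M x) else w₂ (red n M x) := by
      intro x hx
      have h1 : ∀ j : ℤ, |j| ≤ t →
          ((x i₀ + (j : ZMod (n * M))).val < n * l ↔ (x i₀).val < n * l) := by
        intro j hj
        by_contra h2
        exact hx ⟨j, hj, h2⟩
      have hre : ∀ c' : Tor k n → Bool, (fun i => red n M (e i : Tor k (n * M))) = e := fun _ =>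
        funext fun i => red_e k n M i
      split_ifs with hz
      · have h3 := hLOC k (n * M) (Tor k n) (red n M) i₀ c c₁ b t x (by
          rintro y ⟨j, hj, hy⟩
          simp only [hc]
          rw [if_pos]
          rw [hy]
          exact (h1 j hj).2 hz)
        rw [h3, hre c₁]
      · have h3 := hLOC k (n * M) (Tor k n) (red n M) i₀ c c₂ b t x (by
          rintro y ⟨j, hj, hy⟩
          simp only [hc]
          rw [if_neg]
          rw [hy]
          exact fun h4 => hz ((h1 j hj).1 h4))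
        rw [h3, hre c₂]
    have hbad := hBAD k (n * M) (n * l) t i₀ (Nat.mul_le_mul_left n hl)
    have hdiff : |(total c b t : ℝ) - W| ≤ (Bad.ncard : ℝ) * (2 * k : ℝ) ^ t := by
      unfold total
      rw [hW, Nat.cast_sum, Nat.cast_sum, ← Finset.sum_sub_distrib]
      refine (Finset.abs_sum_le_sum_abs _ _).trans ?_
      calc ∑ x : Tor k (n * M), |(walks e c b t x : ℝ) -
            ((if (x i₀).val < n * l then w₁ (red n M x) else w₂ (red n M x) : ℕ) : ℝ)|
          ≤ ∑ x : Tor k (n * M), (if x ∈ Bad then (2 * k : ℝ) ^ t else 0) := by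
            refine Finset.sum_le_sum fun x _ => ?_
            by_cases hx : x ∈ Bad
            · rw [if_pos hx]
              have a1 : (walks e c b t x : ℝ) ≤ (2 * k : ℝ) ^ t := by
                exact_mod_cast walks_le e c b t x
              have a2 : ((if (x i₀).val < n * l then w₁ (red n M x)
                  else w₂ (red n M x) : ℕ) : ℝ) ≤ (2 * k : ℝ) ^ t := by
                split_ifs
                · exact_mod_cast walks_le e c₁ b t _
                · exact_mod_cast walks_le e c₂ b t _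
              have a3 : (0 : ℝ) ≤ walks e c b t x := Nat.cast_nonneg _
              have a4 : (0 : ℝ) ≤ ((if (x i₀).val < n * l then w₁ (red n M x)
                  else w₂ (red n M x) : ℕ) : ℝ) := Nat.cast_nonneg _
              rw [abs_le]
              constructor <;> linarith
            · rw [if_neg hx, hgood x hx, sub_self, abs_zero]
        _ = (Bad.ncard : ℝ) * (2 * k : ℝ) ^ t := by
            rw [← Finset.sum_filter, Finset.sum_const, nsmul_eq_mul]
            congr 2
            rw [Set.ncard_eq_toFinset_card']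
            congr 1
            ext x
            simp
    have hden : 0 < ((n * M : ℕ) : ℝ) ^ k * (2 * k : ℝ) ^ t := by positivity
    have hmix : (W : ℝ) / (((n * M : ℕ) : ℝ) ^ k * (2 * k : ℝ) ^ t) =
        (l / M : ℝ) * mono c₁ b t + (1 - l / M : ℝ) * mono c₂ b t := by
      rw [← div_div, h]
      unfold mono
      show _ = (l / M : ℝ) * (((∑ y, w₁ y : ℕ) : ℝ) / ((n : ℝ) ^ k * (2 * k : ℝ) ^ t)) +
        (1 - l / M : ℝ) * (((∑ y, w₂ y : ℕ) : ℝ) / ((n : ℝ) ^ k * (2 * k : ℝ) ^ t))
      rw [← div_div, ← div_div]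
      ring
    rw [← hmix]
    have hmono : mono c b t = (total c b t : ℝ) / (((n * M : ℕ) : ℝ) ^ k * (2 * k : ℝ) ^ t) := rfl
    rw [hmono, ← sub_div, abs_div, abs_of_pos hden, div_le_iff₀ hden]
    refine hdiff.trans ?_
    have hb2 : (Bad.ncard : ℝ) ≤ (4 * t + 2) * ((n * M : ℕ) : ℝ) ^ (k - 1) := by
      exact_mod_cast hbad
    have e1 : ((n * M : ℕ) : ℝ) ^ k = ((n * M : ℕ) : ℝ) * ((n * M : ℕ) : ℝ) ^ (k - 1) := by
      rw [← pow_succ', Nat.sub_add_cancel hk]
    have e2 : (n * M : ℝ) = ((n * M : ℕ) : ℝ) := by push_cast; rfl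
    rw [e1, e2]
    calc (Bad.ncard : ℝ) * (2 * k : ℝ) ^ t
        ≤ ((4 * t + 2) * ((n * M : ℕ) : ℝ) ^ (k - 1)) * (2 * k : ℝ) ^ t :=
          mul_le_mul_of_nonneg_right hb2 (by positivity)
      _ = (4 * t + 2) / ((n * M : ℕ) : ℝ) *
          (((n * M : ℕ) : ℝ) * ((n * M : ℕ) : ℝ) ^ (k - 1) * (2 * k : ℝ) ^ t) := by
          field_simp

end Pool.Agent.H33.TC
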