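import Pool.Agent.H43.TC.Targets

/-!
# MP_183c3b_co: a periodic extension has the same densities
-/

set_option autoImplicit false

namespace Pool.Agent.H33.TC

open Filter Topology Pool.Agent.H43.TC

theorem red_surj (k n M : ℕ) [NeZero n] [NeZero M] :
    Function.Surjective (red (k := k) n M) := by
  intro y
  have h := ZMod.castHom_surjective (Dvd.intro M rfl : n ∣ n * M)
  choose g hg using h
  exact ⟨fun i => g (y i), funext fun i => hg (y i)⟩

theorem red_e (k n M : ℕ) (i : Fin k) : red n M (e i : Tor k (n * M)) = e i := by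
  funext j
  show ZMod.castHom (Dvd.intro M rfl) (ZMod n) ((Pi.single i 1 : Tor k (n * M)) j) =
    (Pi.single i 1 : Tor k n) j
  by_cases h : j = i
  · subst h
    rw [Pi.single_eq_same, Pi.single_eq_same, map_one]
  · rw [Pi.single_eq_of_ne h, Pi.single_eq_of_ne h, map_zero]

theorem card_tor (k n : ℕ) [NeZero n] : Fintype.card (Tor k n) = n ^ k := by
  rw [Fintype.card_fun, ZMod.card, Fintype.card_fin]

theorem size_eq {k n : ℕ} [NeZero n] (c : Tor k n → Bool) (b : Bool) :
    size c b = ∑ x, (if c x = b then 1 else 0) := by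
  unfold size
  rw [Finset.card_filter]

theorem total_red (hHOM : T_HOM) (k n M : ℕ) [NeZero n] [NeZero M] (c : Tor k n → Bool)
    (b : Bool) (t : ℕ) (x : Tor k (n * M)) :
    walks e (fun x => c (red n M x)) b t x = walks e c b t (red n M x) := by
  rw [hHOM (Tor k (n * M)) (Tor k n) k e (red n M) c b t x]
  congr 1
  funext i
  exact red_e k n M i

/-- a periodic extension has the same densities -/
theorem pul (hHOM : T_HOM) (hAVG : T_AVG) : T_PUL := by
  intro k n M _ _ c b t
  have hn : (n : ℝ) ^ k ≠ 0 := pow_ne_zero _ (Nat.cast_ne_zero.2 (NeZero.ne n))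
  have hnM : ((n * M : ℕ) : ℝ) ^ k ≠ 0 := pow_ne_zero _ (Nat.cast_ne_zero.2 (NeZero.ne (n * M)))
  have key : ∀ f : Tor k n → ℕ, ((∑ x : Tor k (n * M), f (red n M x) : ℕ) : ℝ) /
      ((n * M : ℕ) : ℝ) ^ k = ((∑ y, f y : ℕ) : ℝ) / (n : ℝ) ^ k := by
    intro f
    have h1 := hAVG (Tor k (n * M)) (Tor k n) (red n M) (red_surj k n M) f
    rw [card_tor, card_tor] at h1
    have h2 : (n : ℝ) ^ k * ((∑ x : Tor k (n * M), f (red n M x) : ℕ) : ℝ) =
        ((n * M : ℕ) : ℝ) ^ k * ((∑ y, f y : ℕ) : ℝ) := by exact_mod_cast h1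
    rw [div_eq_div_iff hnM hn]
    linarith
  constructor
  · unfold dens
    rw [size_eq, size_eq]
    exact key fun y => if c y = b then 1 else 0
  · unfold mono
    have h3 : total (fun x => c (red n M x)) b t = ∑ x : Tor k (n * M),
        walks e c b t (red n M x) :=
      Finset.sum_congr rfl fun x _ => total_red hHOM k n M c b t x
    rw [h3, ← div_div, ← div_div, key fun y => walks e c b t y]
    rfl

end Pool.Agent.H33.TC
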